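import Pool.Agent.Q129.VetoClasses

set_option autoImplicit false

/-!
The maximum chromatic number is 4 for unit veto interval graphs, and 3 for midpoint unit veto
interval graphs and for midpoint proper veto interval graphs.
-/

namespace Pool.Agent.Results.MP_193372_co.AllThree

open Q129.VetoClasses

theorem result :
    IsGreatest {c : ℕ | ∃ (n : ℕ) (G : SimpleGraph (Fin n)), IsUVI G ∧ G.chromaticNumber = c} 4 ∧
    IsGreatest {c : ℕ | ∃ (n : ℕ) (G : SimpleGraph (Fin n)), IsMUVI G ∧ G.chromaticNumber = c} 3 ∧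
    IsGreatest {c : ℕ | ∃ (n : ℕ) (G : SimpleGraph (Fin n)), IsMPVI G ∧ G.chromaticNumber = c} 3 :=
  Q129.VetoClasses.main

end Pool.Agent.Results.MP_193372_co.AllThree
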